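import Pool.Agent.Q207.FE

/-- Finite embeddability does not imply M-divisibility on `L`: there are ultrafilters `F` on the
primes and `G` on the products of two primes with `F ≤_fe G` but not `F ∣_M G`. -/
theorem Pool.Agent.Results.MP_31068f_lc.Disproof.result :
    ∃ F G : Ultrafilter ℕ+, Q207.FE.Lev 1 ∈ F ∧ Q207.FE.Lev 2 ∈ G ∧
      Q207.FE.FE F G ∧ ¬ Q207.FE.MDiv F G := by
  obtain ⟨F, G, h1, h2, h3, -, h5, h6, h7, h8⟩ := Q207.FE.example_exists
  exact ⟨F, G, h1, h2, h3, Q207.FE.not_mdiv_of_indecomposable h5 h6 h7 h8⟩
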